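import Pool.Agent.MP_6af7b0_al.Final

set_option autoImplicit false

universe u v

open Filter Topology

namespace Pool.Agent.Results.MP_6af7b0_al.ExponentialGrowth

open Pool.Agent.MP_6af7b0_al

/-- The semigroup `S` satisfies the identities `p.1 = p.2`, `p ∈ E`, in the variables `ℕ`. -/
def Satisfies (S : Type u) [Semigroup S] (E : Set (FreeSemigroup ℕ × FreeSemigroup ℕ)) : Prop :=
  ∀ p ∈ E, ∀ f : FreeSemigroup ℕ →ₙ* S, f p.1 = f p.2

/-- Every element generates a finite subsemigroup. -/
def Periodic (S : Type u) [Semigroup S] : Prop :=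
  ∀ a : S, (Subsemigroup.closure ({a} : Set S) : Set S).Finite

/-- Every finitely generated subsemigroup is finite. -/
def LocallyFinite (S : Type u) [Semigroup S] : Prop :=
  ∀ A : Set S, A.Finite → (Subsemigroup.closure A : Set S).Finite

/-- The elements which are products of at most `n` of the elements `g i`. -/
def ball {S : Type u} [Semigroup S] {k : ℕ} (g : Fin k → S) (n : ℕ) : Set S :=
  {x : S | ∃ w : FreeSemigroup (Fin k), w.length ≤ n ∧ FreeSemigroup.lift g w = x}

/-- The growth function. -/
noncomputable def growth {S : Type u} [Semigroup S] {k : ℕ} (g : Fin k → S) (n : ℕ) : ℕ :=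
  Nat.card (ball g n)

/-! ### reduction to the universe `0` -/

theorem countable_free (α : Type u) [Countable α] : Countable (FreeSemigroup α) := by
  have hinj : Function.Injective fun w : FreeSemigroup α => w.head :: w.tail := by
    intro a b h
    simp only [List.cons.injEq] at h
    exact FreeSemigroup.ext h.1 h.2
  exact hinj.countable

theorem countable_closure {S : Type u} [Semigroup S] {A : Set S} (hA : A.Finite) :
    Countable (Subsemigroup.closure A) := by
  have : Countable A := hA.countable.to_subtype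
  have := countable_free A
  have hsub : (Subsemigroup.closure A : Set S) ⊆
      Set.range (FreeSemigroup.lift (fun a : A => (a : S))) := by
    intro x hx
    refine Subsemigroup.closure_induction (p := fun x _ => x ∈ Set.range (FreeSemigroup.lift
      (fun a : A => (a : S)))) ?_ ?_ hx
    · intro x hx
      exact ⟨FreeSemigroup.of ⟨x, hx⟩, FreeSemigroup.lift_of _ _⟩
    · rintro x y _ _ ⟨w, rfl⟩ ⟨w', rfl⟩
      exact ⟨w * w', map_mul _ _ _⟩
  exact ((Set.countable_range _).mono hsub).to_subtype

theorem shrink {S : Type u} [Semigroup S] {A : Set S} (hA : A.Finite) :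
    ∃ (T : Type) (_ : Semigroup T) (φ : T →ₙ* S), Function.Injective φ ∧
      Set.range φ = (Subsemigroup.closure A : Set S) := by
  have := countable_closure hA
  have hs : Small.{0} (Subsemigroup.closure A) := inferInstance
  let e : Shrink.{0} (Subsemigroup.closure A) ≃* Subsemigroup.closure A := Shrink.mulEquiv
  refine ⟨Shrink.{0} (Subsemigroup.closure A), inferInstance,
    (MulMemClass.subtype (Subsemigroup.closure A)).comp (e : Shrink.{0} (Subsemigroup.closure A) →ₙ*
      Subsemigroup.closure A), ?_, ?_⟩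
  · intro x y h
    exact e.injective (Subtype.ext h)
  · ext x
    constructor
    · rintro ⟨t, rfl⟩
      exact (e t).2
    · intro hx
      refine ⟨e.symm ⟨x, hx⟩, ?_⟩
      show ((e (e.symm ⟨x, hx⟩) : Subsemigroup.closure A) : S) = x
      rw [e.apply_symm_apply]

theorem sat_of_inj {S : Type u} {T : Type v} [Semigroup S] [Semigroup T] {φ : T →ₙ* S}
    (hφ : Function.Injective φ) {E : Set (FreeSemigroup ℕ × FreeSemigroup ℕ)}
    (h : Satisfies S E) : Satisfies T E := by
  intro p hp f
  exact hφ (h p hp (φ.comp f))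

theorem closure_image {S : Type u} {T : Type v} [Semigroup S] [Semigroup T] (φ : T →ₙ* S)
    (B : Set T) : φ '' (Subsemigroup.closure B : Set T) = (Subsemigroup.closure (φ '' B) : Set S) := by
  rw [← MulHom.map_mclosure]
  rfl

theorem down1 {E : Set (FreeSemigroup ℕ × FreeSemigroup ℕ)}
    (h : ∃ (S : Type u) (_ : Semigroup S), Satisfies S E ∧ ¬ Periodic S) :
    ∃ (S : Type) (_ : Semigroup S), Satisfies S E ∧
      ∃ a : S, (Subsemigroup.closure ({a} : Set S) : Set S).Infinite := by
  obtain ⟨S, i, hS, hp⟩ := h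
  unfold Periodic at hp
  push Not at hp
  obtain ⟨a, ha⟩ := hp
  obtain ⟨T, iT, φ, hφ, hr⟩ := shrink (Set.finite_singleton a)
  refine ⟨T, iT, sat_of_inj hφ hS, ?_⟩
  obtain ⟨t, ht⟩ : a ∈ Set.range φ := by
    rw [hr]
    exact Subsemigroup.subset_closure rfl
  refine ⟨t, fun hfin => ha ?_⟩
  have := hfin.image φ
  rw [closure_image, Set.image_singleton, ht] at this
  exact this

theorem down2 {E : Set (FreeSemigroup ℕ × FreeSemigroup ℕ)}
    (h : ∃ (S : Type u) (_ : Semigroup S), Satisfies S E ∧ Periodic S ∧ ¬ LocallyFinite S) :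
    ∃ (S : Type) (_ : Semigroup S), Satisfies S E ∧ Periodic S ∧
      ∃ A : Set S, A.Finite ∧ (Subsemigroup.closure A : Set S).Infinite := by
  obtain ⟨S, i, hS, hper, hp⟩ := h
  unfold LocallyFinite at hp
  push Not at hp
  obtain ⟨A, hA, hAi⟩ := hp
  obtain ⟨T, iT, φ, hφ, hr⟩ := shrink hA
  have hsub : A ⊆ Set.range φ := by
    rw [hr]
    exact Subsemigroup.subset_closure
  refine ⟨T, iT, sat_of_inj hφ hS, ?_, φ ⁻¹' A, hA.preimage hφ.injOn, ?_⟩
  · intro t
    have h1 := hper (φ t)
    rw [← Set.image_singleton, ← closure_image] at h1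
    exact Set.Finite.of_finite_image h1 hφ.injOn
  · intro hfin
    have h1 := hfin.image φ
    rw [closure_image, Set.image_preimage_eq_of_subset hsub] at h1
    exact hAi h1

/-! ### the growth function -/

theorem finite_ball {S : Type u} [Semigroup S] {k : ℕ} (g : Fin k → S) (n : ℕ) :
    (ball g n).Finite := by
  have h1 : Set.Finite {w : FreeSemigroup (Fin k) | w.length ≤ n} := by
    apply Set.Finite.of_finite_image (f := toL) _ (fun a _ b _ h => toL_inj h)
    apply (List.finite_length_lt (Fin k) (n + 1)).subset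
    rintro _ ⟨w, hw, rfl⟩
    simp only [Set.mem_ofPred_eq, FreeSemigroup.length] at hw
    simp only [Set.mem_ofPred_eq, toL, List.length_cons]
    omega
  apply (h1.image (FreeSemigroup.lift g)).subset
  rintro x ⟨w, hw, rfl⟩
  exact ⟨w, hw, rfl⟩

theorem split_word {α : Type} (w : FreeSemigroup α) {m : ℕ} (hm : 1 ≤ m) (hw : m < w.length) :
    ∃ a b : FreeSemigroup α, w = a * b ∧ a.length = m ∧ b.length + m = w.length := by
  obtain ⟨h, t⟩ := w
  simp only [FreeSemigroup.length] at hw ⊢
  have hne : t.drop (m - 1) ≠ [] := by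
    intro h
    have := congrArg List.length h
    simp only [List.length_drop, List.length_nil] at this
    omega
  refine ⟨⟨h, t.take (m - 1)⟩, ⟨(t.drop (m - 1)).head hne, (t.drop (m - 1)).tail⟩, ?_, ?_, ?_⟩
  · apply toL_inj
    rw [toL_mul]
    simp only [toL, List.cons_append, List.cons_head_tail, List.take_append_drop]
  · simp only [List.length_take]
    omega
  · simp only [List.length_tail, List.length_drop]
    omega

theorem ball_add {S : Type u} [Semigroup S] {k : ℕ} (g : Fin k → S) (m n : ℕ) :
    ball g (m + n) ⊆ (ball g m ∪ ball g n) ∪ Set.image2 (· * ·) (ball g m) (ball g n) := by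
  rintro x ⟨w, hw, rfl⟩
  by_cases h1 : w.length ≤ m
  · exact Or.inl (Or.inl ⟨w, h1, rfl⟩)
  · by_cases h2 : w.length ≤ n
    · exact Or.inl (Or.inr ⟨w, h2, rfl⟩)
    · right
      have hm : 1 ≤ m := by
        by_contra h
        have : m = 0 := by omega
        subst this
        omega
      obtain ⟨a, b, rfl, ha, hb⟩ := split_word w hm (by omega)
      refine ⟨_, ⟨a, by omega, rfl⟩, _, ⟨b, by omega, rfl⟩, ?_⟩
      simp only [map_mul]

theorem growth_add {S : Type u} [Semigroup S] {k : ℕ} (g : Fin k → S) (m n : ℕ) :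
    growth g (m + n) + 1 ≤ (growth g m + 1) * (growth g n + 1) := by
  have hm := finite_ball g m
  have hn := finite_ball g n
  have h2 : (Set.image2 (· * ·) (ball g m) (ball g n)).Finite := hm.image2 _ hn
  have h1 : (ball g (m + n)).ncard ≤ (ball g m).ncard + (ball g n).ncard +
      (ball g m).ncard * (ball g n).ncard := by
    refine (Set.ncard_le_ncard (ball_add g m n) ((hm.union hn).union h2)).trans ?_
    refine (Set.ncard_union_le _ _).trans ?_
    refine Nat.add_le_add (Set.ncard_union_le _ _) ?_
    rw [← Set.image_prod]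
    refine (Set.ncard_image_le (hm.prod hn)).trans ?_
    rw [Set.ncard_prod]
  unfold growth
  rw [Nat.card_coe_set_eq, Nat.card_coe_set_eq, Nat.card_coe_set_eq]
  nlinarith

theorem limit {S : Type u} [Semigroup S] {k : ℕ} (g : Fin k → S) {c : ℝ} (hc : 0 < c)
    (h : ∀ n ≥ 1, c ^ n ≤ (growth g n : ℝ)) :
    ∃ L : ℝ, c ≤ L ∧ Tendsto (fun n : ℕ => (growth g n : ℝ) ^ ((n : ℝ)⁻¹)) atTop (𝓝 L) := by
  set u : ℕ → ℝ := fun n => Real.log (growth g n + 1) with hu
  have hpos : ∀ n, (0 : ℝ) < growth g n + 1 := fun n => by positivity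
  have hsub : Subadditive u := by
    intro m n
    simp only [hu]
    rw [← Real.log_mul (hpos m).ne' (hpos n).ne']
    apply Real.log_le_log (hpos _)
    exact_mod_cast growth_add g m n
  have hu0 : ∀ n, 0 ≤ u n := fun n => Real.log_nonneg (by
    have : (0 : ℝ) ≤ growth g n := Nat.cast_nonneg _
    linarith)
  have hbdd : BddBelow (Set.range fun n => u n / n) := by
    refine ⟨0, ?_⟩
    rintro _ ⟨n, rfl⟩
    exact div_nonneg (hu0 n) (Nat.cast_nonneg _)
  have hlim := hsub.tendsto_lim hbdd
  have hg1 : ∀ n ≥ 1, (1 : ℝ) ≤ growth g n := by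
    intro n hn
    have h1 : (0 : ℝ) < growth g n := lt_of_lt_of_le (by positivity) (h n hn)
    have h2 : 0 < growth g n := by exact_mod_cast h1
    exact_mod_cast h2
  have hlow : Real.log c ≤ hsub.lim := by
    refine ge_of_tendsto hlim ?_
    filter_upwards [eventually_ge_atTop 1] with n hn
    have hn0 : (0 : ℝ) < n := by exact_mod_cast hn
    rw [le_div_iff₀ hn0, mul_comm, ← Real.log_pow]
    refine Real.log_le_log (by positivity) ((h n hn).trans (by linarith))
  refine ⟨Real.exp hsub.lim, ?_, ?_⟩
  · calc c = Real.exp (Real.log c) := (Real.exp_log hc).symm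
      _ ≤ _ := Real.exp_le_exp.2 hlow
  have hlog : Tendsto (fun n : ℕ => Real.log (growth g n) * (n : ℝ)⁻¹) atTop (𝓝 hsub.lim) := by
    have h2 : Tendsto (fun n : ℕ => u n / n - Real.log 2 / n) atTop (𝓝 (hsub.lim - 0)) :=
      hlim.sub (tendsto_const_div_atTop_nhds_zero_nat _)
    rw [sub_zero] at h2
    refine tendsto_of_tendsto_of_tendsto_of_le_of_le' h2 hlim ?_ ?_
    · filter_upwards [eventually_ge_atTop 1] with n hn
      have hn0 : (0 : ℝ) < n := by exact_mod_cast hn
      rw [← sub_div, ← div_eq_mul_inv]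
      apply div_le_div_of_nonneg_right _ hn0.le
      have h3 := hg1 n hn
      have h4 : u n ≤ Real.log (2 * growth g n) := Real.log_le_log (hpos n) (by linarith)
      rw [Real.log_mul (by norm_num) (by linarith)] at h4
      linarith
    · filter_upwards [eventually_ge_atTop 1] with n hn
      have hn0 : (0 : ℝ) < n := by exact_mod_cast hn
      rw [← div_eq_mul_inv]
      apply div_le_div_of_nonneg_right _ hn0.le
      exact Real.log_le_log (by linarith [hg1 n hn]) (by linarith)
  refine (Real.continuous_exp.continuousAt.tendsto.comp hlog).congr' ?_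
  filter_upwards [eventually_ge_atTop 1] with n hn
  rw [Real.rpow_def_of_pos (by linarith [hg1 n hn])]
  rfl

/-! ### the semigroup -/

theorem assembly' (E : Set (FreeSemigroup ℕ × FreeSemigroup ℕ)) (α : Type) [Fintype α]
    (C : Set (List α)) (hfac : ∀ a b c, a ++ b ++ c ∈ C → b ∈ C)
    (hE : ∀ p ∈ E, ∀ θ : ℕ → List α, (∀ x, θ x ≠ []) →
      ((toL p.1).flatMap θ ∈ C → (toL p.2).flatMap θ = (toL p.1).flatMap θ) ∧
      ((toL p.2).flatMap θ ∈ C → (toL p.1).flatMap θ = (toL p.2).flatMap θ))
    (c : ℝ) (hgrow : ∀ n ≥ 1, c ^ n ≤ (Nat.card {w : List α // w ∈ C ∧ w.length = n} : ℝ)) :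
    ∃ (T : Type) (_ : Semigroup T), Satisfies T E ∧ ∃ (k : ℕ) (g : Fin k → T),
      Subsemigroup.closure (Set.range g) = ⊤ ∧ ∀ n ≥ 1, c ^ n ≤ (growth g n : ℝ) := by
  classical
  set r := reesCon C hfac with hr
  have hmk : ∀ a b : FreeSemigroup α, ((a : r.Quotient) = (b : r.Quotient)) ↔
      (a = b ∨ (toL a ∉ C ∧ toL b ∉ C)) := fun a b => Con.eq r
  let e := Fintype.equivFin α
  let g : Fin (Fintype.card α) → r.Quotient := fun i => ((FreeSemigroup.of (e.symm i) :
    FreeSemigroup α) : r.Quotient)
  have hlift : ∀ w : FreeSemigroup α, FreeSemigroup.lift g (FreeSemigroup.map e w) =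
      (w : r.Quotient) := by
    intro w
    induction w using FreeSemigroup.recOnMul with
    | ih1 x => simp [g]
    | ih2 x y h1 h2 => rw [map_mul, map_mul, h1, h2, Con.coe_mul]
  refine ⟨r.Quotient, inferInstance, ?_, Fintype.card α, g, ?_, ?_⟩
  · intro p hp f
    have hex : ∀ x : ℕ, ∃ a : FreeSemigroup α, (a : r.Quotient) = f (FreeSemigroup.of x) := by
      intro x
      obtain ⟨a, ha⟩ := Quotient.exists_rep (f (FreeSemigroup.of x))
      exact ⟨a, ha⟩
    choose a ha using hex
    have hF : ∀ w : FreeSemigroup ℕ, f w = ((FreeSemigroup.lift a w : FreeSemigroup α) :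
        r.Quotient) := by
      intro w
      induction w using FreeSemigroup.recOnMul with
      | ih1 x => rw [FreeSemigroup.lift_of, ha]
      | ih2 x y h1 h2 => rw [map_mul, map_mul, h1, h2, Con.coe_mul]
    rw [hF, hF, hmk]
    obtain ⟨h1, h2⟩ := hE p hp (fun x => toL (a x)) (fun x => toL_ne_nil _)
    rw [← toL_lift, ← toL_lift] at h1 h2
    by_cases hu : toL (FreeSemigroup.lift a p.1) ∈ C
    · exact Or.inl (toL_inj (h1 hu)).symm
    · by_cases hv : toL (FreeSemigroup.lift a p.2) ∈ C
      · exact Or.inl (toL_inj (h2 hv))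
      · exact Or.inr ⟨hu, hv⟩
  · rw [eq_top_iff]
    intro x hx0
    clear hx0
    obtain ⟨w, rfl⟩ := Quotient.exists_rep x
    change ((w : r.Quotient)) ∈ _
    induction w using FreeSemigroup.recOnMul with
    | ih1 x =>
      apply Subsemigroup.subset_closure
      exact ⟨e x, by simp [g]⟩
    | ih2 x y h1 h2 =>
      rw [Con.coe_mul]
      exact Subsemigroup.mul_mem _ h1 h2
  · intro n hn
    refine le_trans (hgrow n hn) ?_
    have : Finite (ball g n) := (finite_ball g n).to_subtype
    have hne : ∀ w : List α, w.length = n → ∃ h : w ≠ [], toL ⟨w.head h, w.tail⟩ = w := by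
      intro w hw
      have h : w ≠ [] := by
        rintro rfl
        simp at hw
        omega
      exact ⟨h, List.cons_head_tail h⟩
    choose hne1 hne2 using hne
    let F : {w : List α // w ∈ C ∧ w.length = n} → FreeSemigroup α := fun w =>
      ⟨w.1.head (hne1 w.1 w.2.2), w.1.tail⟩
    have hF : ∀ w, toL (F w) = w.1 := fun w => hne2 w.1 w.2.2
    have hinj := Nat.card_le_card_of_injective
      (fun w : {w : List α // w ∈ C ∧ w.length = n} =>
        (⟨((F w : FreeSemigroup α) : r.Quotient), FreeSemigroup.map e (F w), by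
          have h1 := FreeSemigroup.length_map e (F w)
          simp only [FreeSemigroup.length] at h1
          have h2 : (toL (F w)).length = n := by rw [hF]; exact w.2.2
          simp only [toL, List.length_cons] at h2
          simp only [FreeSemigroup.length]
          omega, hlift _⟩ : ball g n)) (by
        intro w w' h
        have h1 := congrArg Subtype.val h
        simp only at h1
        rw [hmk] at h1
        rcases h1 with h1 | h1
        · apply Subtype.ext
          rw [← hF w, ← hF w', h1]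
        · exact absurd (by rw [hF]; exact w.2.1) h1.1)
    unfold growth
    exact_mod_cast hinj

/-- Let `E` be a finite set of semigroup identities such that the variety defined by `E` is not periodic and contains
a periodic semigroup which is not locally finite. Then for every real `c` the variety contains a finitely generated
semigroup whose growth function `f` satisfies `lim f(n)^(1/n) > c`; in particular (`c = 1`) one of exponential growth. -/
theorem result (E : Set (FreeSemigroup ℕ × FreeSemigroup ℕ)) (hE : E.Finite)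
    (hnp : ∃ (S : Type u) (_ : Semigroup S), Satisfies S E ∧ ¬ Periodic S)
    (hlf : ∃ (S : Type v) (_ : Semigroup S), Satisfies S E ∧ Periodic S ∧ ¬ LocallyFinite S)
    (c : ℝ) :
    ∃ (T : Type) (_ : Semigroup T), Satisfies T E ∧ ∃ (k : ℕ) (g : Fin k → T),
      Subsemigroup.closure (Set.range g) = ⊤ ∧ ∃ L : ℝ, c < L ∧
        Tendsto (fun n : ℕ => (growth g n : ℝ) ^ ((n : ℝ)⁻¹)) atTop (𝓝 L) := by
  obtain ⟨S1, i1, hS1, a, ha⟩ := down1 hnp
  obtain ⟨S2, i2, hS2, hper, A, hA, hAinf⟩ := down2 hlf
  obtain ⟨M, hM⟩ : ∃ M : ℕ, ∀ p ∈ E, (toL p.1).length + (toL p.2).length ≤ M := by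
    obtain ⟨M, hM⟩ := (hE.image fun p => (toL p.1).length + (toL p.2).length).bddAbove
    exact ⟨M, fun p hp => hM ⟨p, hp, rfl⟩⟩
  obtain ⟨q, hq⟩ := exists_nat_gt c
  set m : ℕ := M + q + 2 with hm
  have hlen : ∀ p ∈ E, (toL p.1).length + 1 < m ∧ (toL p.2).length + 1 < m := by
    intro p hp
    have := hM p hp
    omega
  have hbal : ∀ p ∈ E, (toL p.1).Perm (toL p.2) := fun p hp =>
    balanced p.1 p.2 (hS1 p hp) a ha
  obtain ⟨T, iT, hT, k, g, hg, hgr⟩ := assembly' E (Letter m) (CL m) (CL_factorial m) (by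
    intro p hp θ hθ
    obtain ⟨l1, l2⟩ := hlen p hp
    constructor
    · intro h
      exact lang_isoterm l1 (hbal p hp).symm
        (zimin_cond S2 p.1 p.2 (hS2 p hp) hper A hA hAinf (hbal p hp)) hθ h
    · intro h
      exact lang_isoterm l2 (hbal p hp)
        (zimin_cond S2 p.2 p.1 (fun f => (hS2 p hp f).symm) hper A hA hAinf (hbal p hp).symm) hθ h)
    (Real.exp (4 * m)) (Pool.Agent.MP_6af7b0_al.growth m (by omega))
  obtain ⟨L, hL1, hL2⟩ := limit g (Real.exp_pos _) hgr
  refine ⟨T, iT, hT, k, g, hg, L, ?_, hL2⟩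
  have h1 : (4 * (m : ℝ)) + 1 ≤ Real.exp (4 * m) := Real.add_one_le_exp _
  have h2 : (q : ℝ) ≤ m := by
    exact_mod_cast (by omega : q ≤ m)
  have h3 : (0 : ℝ) ≤ m := Nat.cast_nonneg _
  linarith

end Pool.Agent.Results.MP_6af7b0_al.ExponentialGrowth
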